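import Mathlib
import Pool.Agent.Y918.GB.Rel
import Pool.Agent.Y918.GB.Sch

set_option autoImplicit false

/-!
# Sets without nondegenerate cubes are exponentially small
-/

namespace Pool.Agent.Y918.OL

open Finset Module
open Pool.Agent.Y918.GB (asm asm_inl asm_inr count winE winE_inl win win_injective final_bound)

/-- The direction given by two vectors in a window. -/
def dir {G M : ℕ} {R I : Type} (E : (Fin G × Fin M) ⊕ R ≃ I) (g : Fin G) (v : Fin M → ℚ) : I → ℚ :=
  fun i => Sum.elim (fun p : Fin G × Fin M => if p.1 = g then v p.2 else 0) (fun _ => 0) (E.symm i)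

open Classical in
/-- **Sets without nondegenerate cubes are exponentially small.** -/
theorem cube_count (r : ℕ) : ∃ (k₀ C : ℕ) (δ : ℝ), 0 < δ ∧ ∀ k ≥ k₀, ∀ A : Finset ℚ, A.Nonempty →
    ∀ bad : (Fin k → ℚ) → Prop,
    (∀ (β : Fin k → ℚ) (u : Fin r → Fin k → ℚ), (∀ i, u i ≠ 0) →
      (∀ i j, i ≠ j → ∀ s, u i s = 0 ∨ u j s = 0) → ∃ S : Finset (Fin r), ¬ bad (β + ∑ i ∈ S, u i)) →
    (((Fintype.piFinset fun _ : Fin k => A).filter bad).card : ℝ) ≤
      C * (A.card : ℝ) ^ ((k : ℝ) - δ * k) := by
  obtain ⟨G, hG⟩ : ∃ G, G = r + 1 := ⟨_, rfl⟩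
  have hG0 : 0 < G := by omega
  obtain ⟨e, he⟩ : ∃ e : ℝ, e = (1 / ((1 : ℕ) + 1 : ℝ)) ^ G := ⟨_, rfl⟩
  have he0 : 0 < e := by rw [he]; positivity
  refine ⟨G * 1, G, e / (8 * G), by positivity, fun k hk A hA bad hcube => ?_⟩
  obtain ⟨M, hM⟩ : ∃ M, M = k / G := ⟨_, rfl⟩
  have hGM : G * M ≤ k := by rw [hM]; exact Nat.mul_div_le k G
  have hM1 : 1 ≤ M := by
    rw [hM, Nat.le_div_iff_mul_le hG0, mul_comm]
    exact hk
  have hkM : k < G * (M + 1) := by
    rw [hM]
    exact Nat.lt_mul_div_succ k hG0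
  have h8 : k ≤ 8 * G * M := by
    calc k ≤ G * (M + 1) := hkM.le
      _ ≤ G * (8 * M) := Nat.mul_le_mul_left _ (by omega)
      _ = 8 * G * M := by ring
  obtain ⟨a, ha⟩ : ∃ a : ℝ, a = (A.card : ℝ) := ⟨_, rfl⟩
  have ha1 : 1 ≤ a := by
    rw [ha]
    exact_mod_cast hA.card_pos
  have ha0 : 0 < a := by linarith
  rw [← ha]
  set σ : Fin G × Fin M → Fin k := win hGM (id : Fin G → Fin G) with hσ
  have hσi : Function.Injective σ := win_injective hGM Function.injective_id
  set E := winE σ hσi with hE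
  obtain ⟨θ, hθ⟩ : ∃ θ : ℝ, θ = (a ^ M)⁻¹ := ⟨_, rfl⟩
  have hθ0 : 0 < θ := by rw [hθ]; positivity
  have hθ1 : θ ≤ 1 := by
    rw [hθ]
    exact inv_le_one_of_one_le₀ (one_le_pow₀ ha1)
  set XA : Finset (Fin M → ℚ) := Fintype.piFinset fun _ => A with hXA
  have hXAc : (XA.card : ℝ) = a ^ M := by
    rw [hXA, Fintype.card_piFinset_const, ha]
    push_cast
    rfl
  have hmain := count (K := 1) E A θ hθ0 hθ1 (fun _ x => x 0 = x 1) (by
    intro g
    rw [← ha]
    refine le_trans (Nat.cast_le.2 (Finset.card_le_card_of_injOn (t := XA) (fun x => x 0) ?_ ?_)) ?_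
    · intro x hx
      simp only [Finset.coe_filter, Set.mem_setOf_eq, Fintype.mem_piFinset] at hx
      rw [Finset.mem_coe, hXA, Fintype.mem_piFinset]
      exact fun i => hx.1 0 i
    · intro x hx x' hx' h
      simp only [Finset.coe_filter, Set.mem_setOf_eq] at hx hx'
      funext i
      fin_cases i
      · exact h
      · change x 1 = x' 1
        rw [← hx.2, ← hx'.2]
        exact h
    rw [hXAc, hθ]
    have h2 : a ^ M ≠ 0 := by positivity
    have h3 : (a ^ M)⁻¹ * (a ^ M) ^ (1 + 1) = a ^ M := by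
      field_simp
    rw [h3]) bad (by
    intro y x hx
    obtain ⟨S, hS⟩ := hcube (asm E (fun g => x g 0) y)
      (fun i => dir E (Fin.cast hG.symm i.castSucc) (x (Fin.cast hG.symm i.castSucc) 1 -
        x (Fin.cast hG.symm i.castSucc) 0)) (by
      intro i h
      apply hx (Fin.cast hG.symm i.castSucc)
      funext j
      have h2 := congrFun h (E (Sum.inl (Fin.cast hG.symm i.castSucc, j)))
      rw [dir, Equiv.symm_apply_apply] at h2
      simp only [Sum.elim_inl, if_true, Pi.sub_apply, Pi.zero_apply] at h2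
      linarith) (by
      intro i j hij s
      unfold dir
      rcases E.symm s with p | p
      · simp only [Sum.elim_inl]
        by_cases h1 : p.1 = Fin.cast hG.symm i.castSucc
        · right
          rw [if_neg]
          intro h2
          apply hij
          rw [h1] at h2
          have h3 := congrArg Fin.val h2
          simp only [Fin.val_cast, Fin.val_castSucc] at h3
          exact Fin.ext h3
        · left
          rw [if_neg h1]
      · left
        rfl)
    refine ⟨fun g => if ∃ i ∈ S, g = Fin.cast hG.symm (Fin.castSucc i) then 1 else 0, ?_⟩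
    convert hS using 2
    funext s
    rw [Pi.add_apply, Finset.sum_apply]
    unfold dir asm
    rcases E.symm s with p | p
    · simp only [Sum.elim_inl]
      by_cases hp : ∃ i ∈ S, p.1 = Fin.cast hG.symm (Fin.castSucc i)
      · rw [if_pos hp]
        obtain ⟨i, hi, hpi⟩ := hp
        rw [Finset.sum_eq_single_of_mem i hi]
        · rw [if_pos hpi, ← hpi, Pi.sub_apply]
          ring
        · intro j _ hj
          rw [if_neg]
          intro h
          apply hj
          rw [hpi] at h
          have h3 := congrArg Fin.val h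
          simp only [Fin.val_cast, Fin.val_castSucc] at h3
          exact (Fin.ext h3).symm
      · rw [if_neg hp, Finset.sum_eq_zero, add_zero]
        intro i hi
        rw [if_neg]
        intro h
        exact hp ⟨i, hi, h⟩
    · simp)
  refine hmain.trans ?_
  rw [← ha, Fintype.card_fin, ← he]
  have hθe : θ ^ e = a ^ (-(e * M)) := by
    rw [hθ, ← Real.rpow_natCast, ← Real.rpow_neg ha0.le, ← Real.rpow_mul ha0.le]
    congr 1
    ring
  have h1 : (G : ℝ) * θ ^ e * a ^ k = G * a ^ ((k : ℝ) - e * M) := by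
    rw [hθe, mul_assoc, ← Real.rpow_natCast, ← Real.rpow_add ha0]
    congr 2
    ring
  rw [h1]
  exact final_bound he0 hG0 h8 ha1

/-- Sums over disjoint supports are independent. -/
theorem li_dirs {κ C : Type} [Field κ] [CharZero κ] [Field C] [Algebra κ C] [CharZero C] {k r : ℕ}
    {lam : Fin k → C} (hlam : LinearIndependent κ lam) (u : Fin r → Fin k → ℚ) (hu : ∀ i, u i ≠ 0)
    (hd : ∀ i j, i ≠ j → ∀ s, u i s = 0 ∨ u j s = 0) :
    LinearIndependent κ (fun i => ∑ s, (u i s : C) * lam s) := by
  rw [Fintype.linearIndependent_iff]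
  intro c hc i
  rw [Fintype.linearIndependent_iff] at hlam
  have h1 : ∑ s, (∑ j, c j * (u j s : κ)) • lam s = 0 := by
    rw [← hc]
    simp only [Finset.smul_sum, Finset.sum_smul]
    rw [Finset.sum_comm]
    refine Finset.sum_congr rfl fun j _ => Finset.sum_congr rfl fun s _ => ?_
    rw [Algebra.smul_def, Algebra.smul_def, map_mul, map_ratCast]
    ring
  have h2 := hlam _ h1
  obtain ⟨s, hs⟩ : ∃ s, u i s ≠ 0 := by
    by_contra hcon
    push Not at hcon
    exact hu i (funext hcon)
  have h3 := h2 s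
  rw [Finset.sum_eq_single i] at h3
  · rcases mul_eq_zero.1 h3 with h | h
    · exact h
    · exact absurd (by exact_mod_cast h) hs
  · intro j _ hj
    rcases hd i j hj.symm s with h | h
    · exact absurd h hs
    · rw [h, Rat.cast_zero, mul_zero]
  · intro h
    exact absurd (Finset.mem_univ i) h

end Pool.Agent.Y918.OL
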