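import Mathlib
import Pool.Agent.H351R3.Log.Dens2
import Pool.Agent.Y918.RP.Gel
import Pool.Agent.Y918.OL.Cube

set_option autoImplicit false

/-!
# Random tuples of logarithms satisfy only linear relations modulo linear forms in logarithms
-/

namespace Pool.Agent.Y918.OL

open Finset Module MvPolynomial Pool.Agent.H301R2.SSE Pool.Agent.H351R3.Log Pool.Agent.H297R2
open Pool.Agent.Y918.RP (li_QB_of_logs)

theorem rat_mul_mem (V : Submodule QB ℂ) {z : ℂ} (hz : z ∈ V) (q : ℚ) : (q : ℂ) * z ∈ V := by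
  have h := V.smul_mem (algebraMap ℚ QB q) hz
  rwa [Algebra.smul_def, ← IsScalarTower.algebraMap_apply ℚ QB ℂ, eq_ratCast] at h

theorem sum_mem_of_logs {V : Submodule QB ℂ} (hLV : Lt ≤ V) {k : ℕ} {lam : Fin k → ℂ}
    (halg : ∀ i, IsAlgebraic ℚ (Complex.exp (lam i))) (P : Fin k → ℚ) :
    ∑ i, (P i : ℂ) * lam i ∈ V :=
  V.sum_mem fun i _ => rat_mul_mem V (hLV (Lt_log (halg i))) (P i)

open Classical in
/-- One random combination of logarithms. -/
theorem one (σ : Type) [Fintype σ] (D c : ℕ) : ∃ (k₀ C : ℕ) (δ : ℝ), 0 < δ ∧ ∀ k ≥ k₀,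
    ∀ lam : Fin k → ℂ, (∀ i, IsAlgebraic ℚ (Complex.exp (lam i))) → LinearIndependent ℚ lam →
    ∀ A : Finset ℚ, A.Nonempty → ∀ V : Submodule QB ℂ, Lt ≤ V → KBd V c → ∀ ζ ∈ V,
    ∀ (par : σ → Prop) (t : σ → ℂ), NLP V par D t →
    (((Fintype.piFinset fun _ : Fin k => A).filter (fun P =>
      ¬ NLP V (opar par) D (fun o : Option σ => o.elim (ζ + ∑ i, (P i : ℂ) * lam i) t))).card : ℝ) ≤
      C * (A.card : ℝ) ^ ((k : ℝ) - δ * k) := by
  obtain ⟨r, hr⟩ := key2 (κ := QB) (C := ℂ) σ D c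
  obtain ⟨k₀, C, δ, hδ, h⟩ := cube_count r
  refine ⟨k₀, C, δ, hδ, fun k hk lam halg hlam A hA V hLV hV ζ hζ par t ht => ?_⟩
  have hmain := h k hk A hA (fun P =>
    ¬ NLP V (opar par) D (fun o : Option σ => o.elim (ζ + ∑ i, (P i : ℂ) * lam i) t)) ?_
  · convert hmain
  intro β u hu hd
  have hli := li_dirs (li_QB_of_logs halg hlam) u hu hd
  let w : Fin r → V := fun i => ⟨∑ s, (u i s : ℂ) * lam s, sum_mem_of_logs hLV halg (u i)⟩
  have hw : LinearIndependent QB w := by
    apply LinearIndependent.of_comp V.subtype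
    exact hli
  obtain ⟨S, hS⟩ := hr V hV par t ht
    ⟨ζ + ∑ s, (β s : ℂ) * lam s, V.add_mem hζ (sum_mem_of_logs hLV halg β)⟩ w hw
  refine ⟨S, ?_⟩
  rw [not_not]
  convert hS using 4
  push_cast
  rw [add_assoc]
  congr 1
  rw [Finset.sum_comm, ← Finset.sum_add_distrib]
  refine Finset.sum_congr rfl fun s _ => ?_
  rw [Pi.add_apply, Finset.sum_apply]
  push_cast
  rw [add_mul, Finset.sum_mul]

open Classical in
/-- Random tuples of combinations of logarithms. -/
theorem tuples (n : ℕ) : ∀ (σ : Type) [Fintype σ] (D c : ℕ), ∃ (k₀ C : ℕ) (δ : ℝ), 0 < δ ∧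
    ∀ k ≥ k₀, ∀ lam : Fin n → Fin k → ℂ, (∀ j i, IsAlgebraic ℚ (Complex.exp (lam j i))) →
    (∀ j, LinearIndependent ℚ (lam j)) → ∀ A : Finset ℚ, A.Nonempty →
    ∀ V : Submodule QB ℂ, Lt ≤ V → KBd V c → ∀ ζ : Fin n → ℂ, (∀ j, ζ j ∈ V) →
    ∀ (par : σ → Prop) (t : σ → ℂ), NLP V par D t →
    (((Fintype.piFinset fun _ : Fin n => Fintype.piFinset fun _ : Fin k => A).filter (fun P =>
      ¬ NLP V (spar (Fin n) par) D
        (Sum.elim t (fun j => ζ j + ∑ i, (P j i : ℂ) * lam j i)))).card : ℝ) ≤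
      C * (A.card : ℝ) ^ ((n * k : ℝ) - δ * k) := by
  induction n with
  | zero =>
    intro σ _ D c
    refine ⟨0, 0, 1, one_pos, fun k _ lam _ _ A _ V _ _ ζ _ par t ht => ?_⟩
    rw [Finset.filter_false_of_mem]
    · simp
    · intro P _
      rw [not_not, ← NLP.reindex_iff V _ (Equiv.sumEmpty σ (Fin 0)).symm]
      exact ht
  | succ n ih =>
    intro σ _ D c
    obtain ⟨k₁, C₁, δ₁, hδ₁, h₁⟩ := one σ D c
    obtain ⟨k₂, C₂, δ₂, hδ₂, h₂⟩ := ih (Option σ) D c
    refine ⟨max k₁ k₂, C₁ + C₂, min δ₁ δ₂, lt_min hδ₁ hδ₂,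
      fun k hk lam halg hlam A hA V hLV hV ζ hζ par t ht => ?_⟩
    obtain ⟨a, ha⟩ : ∃ a : ℝ, a = (A.card : ℝ) := ⟨_, rfl⟩
    have ha1 : 1 ≤ a := by
      rw [ha]
      exact_mod_cast hA.card_pos
    have ha0 : 0 < a := by linarith
    set X : Finset (Fin k → ℚ) := Fintype.piFinset fun _ : Fin k => A with hX
    have hXc : (X.card : ℝ) = a ^ (k : ℝ) := by
      rw [hX, Fintype.card_piFinset_const, ha]
      push_cast
      rw [Real.rpow_natCast]
    set bad : (Fin (n + 1) → Fin k → ℚ) → Prop := fun P =>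
      ¬ NLP V (spar (Fin (n + 1)) par) D
        (Sum.elim t (fun j => ζ j + ∑ i, (P j i : ℂ) * lam j i)) with hbad
    set B := (Fintype.piFinset fun _ : Fin (n + 1) => X).filter bad with hB
    set H := X.filter (fun P =>
      ¬ NLP V (opar par) D (fun o : Option σ => o.elim (ζ 0 + ∑ i, (P i : ℂ) * lam 0 i) t)) with hH
    have hHc : (H.card : ℝ) ≤ C₁ * a ^ ((k : ℝ) - δ₁ * k) := by
      rw [ha]
      exact h₁ k (le_trans (le_max_left _ _) hk) (lam 0) (halg 0) (hlam 0) A hA V hLV hV (ζ 0)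
        (hζ 0) par t ht
    have hfib : B.card = ∑ p ∈ X, (B.filter (fun P => P 0 = p)).card := by
      apply Finset.card_eq_sum_card_fiberwise
      intro P hP
      exact Fintype.mem_piFinset.1 (Finset.mem_filter.1 hP).1 0
    set Yn : Finset (Fin n → Fin k → ℚ) := Fintype.piFinset fun _ => X with hYn
    have hYc : (Yn.card : ℝ) = a ^ (n * k : ℝ) := by
      rw [hYn, Fintype.card_piFinset_const]
      push_cast
      rw [hXc, ← Real.rpow_natCast, ← Real.rpow_mul ha0.le]
      congr 1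
      ring
    have hinj : ∀ p, Set.InjOn (fun P : Fin (n + 1) → Fin k → ℚ => Fin.tail P)
        (B.filter (fun P => P 0 = p)) := by
      intro p P hP P' hP' hPP
      rw [Finset.mem_coe, Finset.mem_filter] at hP hP'
      rw [← Fin.cons_self_tail P, ← Fin.cons_self_tail P', hP.2, hP'.2]
      exact congrArg _ hPP
    have hall : ∀ p ∈ X, ((B.filter (fun P => P 0 = p)).card : ℝ) ≤ a ^ (n * k : ℝ) := by
      intro p _
      rw [← hYc]
      apply Nat.cast_le.2
      refine Finset.card_le_card_of_injOn (fun P => Fin.tail P) ?_ (hinj p)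
      intro P hP
      rw [Finset.mem_coe, Finset.mem_filter, hB, Finset.mem_filter] at hP
      have h3 := Fintype.mem_piFinset.1 hP.1.1
      exact Fintype.mem_piFinset.2 (fun j => h3 j.succ)
    have hgood : ∀ p ∈ X, p ∉ H → ((B.filter (fun P => P 0 = p)).card : ℝ) ≤
        C₂ * a ^ ((n * k : ℝ) - δ₂ * k) := by
      intro p hp hpH
      have hta : NLP V (opar par) D
          (fun o : Option σ => o.elim (ζ 0 + ∑ i, (p i : ℂ) * lam 0 i) t) := by
        by_contra h
        exact hpH (Finset.mem_filter.2 ⟨hp, h⟩)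
      have h4 := h₂ k (le_trans (le_max_right _ _) hk) (fun j => lam j.succ)
        (fun j => halg j.succ) (fun j => hlam j.succ) A hA V hLV hV (fun j => ζ j.succ)
        (fun j => hζ j.succ) (opar par) _ hta
      rw [← ha] at h4
      refine le_trans (Nat.cast_le.2 ?_) h4
      refine Finset.card_le_card_of_injOn (fun P => Fin.tail P) ?_ (hinj p)
      intro P hP
      rw [Finset.mem_coe, Finset.mem_filter, hB, Finset.mem_filter] at hP
      obtain ⟨⟨hPA, hTi⟩, hP0⟩ := hP
      have h6 := Fintype.mem_piFinset.1 hPA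
      rw [Finset.mem_coe, Finset.mem_filter]
      refine ⟨Fintype.mem_piFinset.2 (fun j => h6 j.succ), ?_⟩
      intro h7
      apply hTi
      rw [← NLP.reindex_iff V _ (optEquiv σ n)]
      have hpar : (spar (Fin (n + 1)) par) ∘ optEquiv σ n = spar (Fin n) (opar par) := by
        funext s
        rcases s with (_ | i) | j <;> simp [optEquiv, spar, opar]
      have hval : (Sum.elim t (fun j => ζ j + ∑ i, (P j i : ℂ) * lam j i)) ∘ optEquiv σ n =
          Sum.elim (fun o : Option σ => o.elim (ζ 0 + ∑ i, (p i : ℂ) * lam 0 i) t)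
            (fun j => ζ j.succ + ∑ i, (Fin.tail P j i : ℂ) * lam j.succ i) := by
        funext s
        rcases s with (_ | i) | j
        · simp [optEquiv, hP0]
        · simp [optEquiv]
        · simp [optEquiv, Fin.tail]
      rw [hval, hpar]
      exact h7
    rw [hfib, ← ha]
    push_cast
    rw [← Finset.sum_filter_add_sum_filter_not X (fun p => p ∈ H)]
    have h1 : ∑ p ∈ X.filter (fun p => p ∈ H), ((B.filter (fun P => P 0 = p)).card : ℝ) ≤
        C₁ * a ^ ((k : ℝ) - δ₁ * k) * a ^ (n * k : ℝ) := by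
      refine (Finset.sum_le_sum (fun p hp => hall p (Finset.mem_filter.1 hp).1)).trans ?_
      rw [Finset.sum_const, nsmul_eq_mul]
      have h3 : ((X.filter (fun p => p ∈ H)).card : ℝ) ≤ (H.card : ℝ) := by
        have h4 : (X.filter (fun p => p ∈ H)).card ≤ H.card := by
          refine Finset.card_le_card ?_
          intro p hp
          exact (Finset.mem_filter.1 hp).2
        exact_mod_cast h4
      exact mul_le_mul_of_nonneg_right (h3.trans hHc) (Real.rpow_nonneg ha0.le _)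
    have h2 : ∑ p ∈ X.filter (fun p => ¬ p ∈ H), ((B.filter (fun P => P 0 = p)).card : ℝ) ≤
        a ^ (k : ℝ) * (C₂ * a ^ ((n * k : ℝ) - δ₂ * k)) := by
      refine (Finset.sum_le_sum (fun p hp => hgood p (Finset.mem_filter.1 hp).1
        (Finset.mem_filter.1 hp).2)).trans ?_
      rw [Finset.sum_const, nsmul_eq_mul, ← hXc]
      have h3 : ((X.filter (fun p => ¬ p ∈ H)).card : ℝ) ≤ (X.card : ℝ) := by
        exact_mod_cast Finset.card_le_card (Finset.filter_subset _ _)
      exact mul_le_mul_of_nonneg_right h3 (by positivity)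
    have hk0 : (0 : ℝ) ≤ k := Nat.cast_nonneg _
    have h3 : C₁ * a ^ ((k : ℝ) - δ₁ * k) * a ^ (n * k : ℝ) ≤
        C₁ * a ^ (((n : ℝ) + 1) * k - min δ₁ δ₂ * k) := by
      rw [mul_assoc, ← Real.rpow_add ha0]
      apply mul_le_mul_of_nonneg_left _ (Nat.cast_nonneg _)
      apply Real.rpow_le_rpow_of_exponent_le ha1
      have := mul_le_mul_of_nonneg_right (min_le_left δ₁ δ₂) hk0
      linarith
    have h4 : a ^ (k : ℝ) * (C₂ * a ^ ((n * k : ℝ) - δ₂ * k)) ≤
        C₂ * a ^ (((n : ℝ) + 1) * k - min δ₁ δ₂ * k) := by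
      rw [mul_left_comm, ← Real.rpow_add ha0]
      apply mul_le_mul_of_nonneg_left _ (Nat.cast_nonneg _)
      apply Real.rpow_le_rpow_of_exponent_le ha1
      have := mul_le_mul_of_nonneg_right (min_le_right δ₁ δ₂) hk0
      linarith
    have h5 := add_le_add (h1.trans h3) (h2.trans h4)
    rw [← add_mul] at h5
    exact h5

end Pool.Agent.Y918.OL
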